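import Mathlib

open Finset

namespace Pool.Agent.Results.MP_17cdb9_nt.Fails

def bin (a : ℚ) (k : ℕ) : ℚ := (∏ i ∈ range k, (a - i)) / k.factorial

def Cg (p m : ℕ) (u v : ℚ) : Prop := (p : ℤ) ^ m ∣ (u - v).num

def S (p : ℕ) : ℚ := ∑ k ∈ range p, (-1) ^ k * bin (-1 / 4) k ^ 2

theorem result : ¬ ∀ p : ℕ, p.Prime → Odd p →
    (∀ x y : ℤ, (p : ℤ) = x ^ 2 + 2 * y ^ 2 → p % 8 = 1 →
      Cg p 2 (S p) ((-1) ^ ((x + 1) / 2) * (2 * x - p / (2 * x)))) ∧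
    (∀ x y : ℤ, (p : ℤ) = x ^ 2 + 2 * y ^ 2 → p % 8 = 3 →
      Cg p 2 (S p) ((-1) ^ ((y - 1) / 2) * (4 * y - p / (2 * y)))) ∧
    ((p % 8 = 5 ∨ p % 8 = 7) → Cg p 1 (S p) 0) := by
  intro h
  have h1 := (h 41 (by norm_num) (by decide)).1 3 4 (by norm_num) (by norm_num)
  revert h1
  unfold Cg S bin
  decide +kernel

end Pool.Agent.Results.MP_17cdb9_nt.Fails
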